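import Pool.Agent.Q4.Blk.RealThm

set_option autoImplicit false

/-!
# MP_f2f914_nt: the orbits of algebraic numbers keep away from algebraic hypersurfaces

Let `θ j k` (`j < J`, `k < n`) be real algebraic numbers such that, for every `j`, the numbers
`1, θ j 0, …, θ j (n - 1)` are linearly independent over `ℚ`, and let `β 0, …, β (r-1)` be real
algebraic numbers which are linearly independent over `ℚ` (for instance a basis of a number field).

1. (Orbits under multiplication by `b`.) For large `m` and places `t 0, …, t (J-1) ≤ C m` which are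
at distance `≥ δ m` from each other and from `0`, the point `x = ({θ j k * b ^ t j})` of
`[0, 1) ^ (J n)` satisfies `|G(x)| > b ^ (-ε m)` for every nonzero polynomial
`G = ∑ k, β k * G k` of degree `≤ d`, where the polynomials `G k` have integer coefficients of
absolute value at most `b ^ (η m)`.

2. The same for `x = ({θ j k * q j})` where the `q j ≤ exp (C m)` are composed of finitely many
primes, `log (q j) ≥ δ m` and `|log (q i) - log (q j)| ≥ δ m`; the coefficients of the `G k` may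
moreover contain factors `ρ I ≤ exp (C m)` composed of these primes: if the coefficients of the
monomial `x ^ I` in the `G k` are `ρ I` times integers of absolute value at most `exp (η m)`, not all
zero for `I = I0`, then `|G(x)| > exp (-ε m) * ρ I0`.
-/

namespace Pool.Agent.Results.MP_f2f914_nt.DistanceFromHypersurfaces

open Pool.Agent.Q4.Blk MvPolynomial

/-- The orbits of algebraic numbers keep away from algebraic hypersurfaces. -/
theorem result :
    (∀ b : ℕ, 2 ≤ b → ∀ (J n : ℕ) (θ : Fin J → Fin n → ℝ), (∀ j k, IsAlgebraic ℚ (θ j k)) →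
      (∀ j, LinearIndependent ℚ (fun o : Option (Fin n) => (o.elim 1 (θ j) : ℝ))) →
      ∀ (r : ℕ) (β : Fin r → ℝ), (∀ k, IsAlgebraic ℚ (β k)) → LinearIndependent ℚ β →
      ∀ (d : ℕ) (δ C ε : ℝ), 0 < δ → 0 < ε →
      ∃ η : ℝ, 0 < η ∧ ∃ M : ℕ, ∀ m : ℕ, M ≤ m → ∀ t : Fin J → ℕ,
        (∀ j, δ * m ≤ t j ∧ (t j : ℝ) ≤ C * m) →
        (∀ i j, i ≠ j → δ * m ≤ |(t i : ℝ) - t j|) →
        ∀ G : Fin r → MvPolynomial (Fin J × Fin n) ℤ, (∃ k, G k ≠ 0) →
          (∀ k, (G k).totalDegree ≤ d) →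
          (∀ k I, |(((G k).coeff I : ℤ) : ℝ)| ≤ (b : ℝ) ^ (η * (m : ℝ))) →
          (b : ℝ) ^ (-(ε * (m : ℝ))) < |∑ k, β k * eval₂ (Int.castRingHom ℝ)
            (fun s => Int.fract (θ s.1 s.2 * (b : ℝ) ^ t s.1)) (G k)|) ∧
    (∀ S : Finset ℕ, (∀ p ∈ S, p.Prime) → ∀ (J n : ℕ) (θ : Fin J → Fin n → ℝ),
      (∀ j k, IsAlgebraic ℚ (θ j k)) →
      (∀ j, LinearIndependent ℚ (fun o : Option (Fin n) => (o.elim 1 (θ j) : ℝ))) →
      ∀ (r : ℕ) (β : Fin r → ℝ), (∀ k, IsAlgebraic ℚ (β k)) → LinearIndependent ℚ β →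
      ∀ (d : ℕ) (δ C ε : ℝ), 0 < δ → 0 < ε →
      ∃ η : ℝ, 0 < η ∧ ∃ M : ℕ, ∀ m : ℕ, M ≤ m → ∀ q : Fin J → ℕ,
        (∀ j, q j ≠ 0) → (∀ j, (q j).primeFactors ⊆ S) →
        (∀ j, δ * m ≤ Real.log (q j)) → (∀ j, Real.log (q j) ≤ C * m) →
        (∀ i j, i ≠ j → δ * m ≤ |Real.log (q i) - Real.log (q j)|) →
        ∀ G : Fin r → MvPolynomial (Fin J × Fin n) ℤ, (∀ k, (G k).totalDegree ≤ d) →
        ∀ ρ : (Fin J × Fin n →₀ ℕ) → ℕ, (∀ I, ρ I ≠ 0) → (∀ I, (ρ I).primeFactors ⊆ S) →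
          (∀ I, Real.log (ρ I) ≤ C * m) → (∀ k I, (ρ I : ℤ) ∣ (G k).coeff I) →
          (∀ k I, |(((G k).coeff I : ℤ) : ℝ)| ≤ Real.exp (η * m) * ρ I) →
          ∀ k I, (G k).coeff I ≠ 0 →
            Real.exp (-(ε * m)) * ρ I < |∑ k, β k *
              eval₂ (Int.castRingHom ℝ) (fun s => Int.fract (θ s.1 s.2 * q s.1)) (G k)|) :=
  ⟨fun b hb J n θ halg hind r β hβa hβ d δ C ε hδ hε =>
      realblocks b hb J n θ halg hind r β hβa hβ d δ C ε hδ hε,
    fun S hS J n θ halg hind r β hβa hβ d δ C ε hδ hε =>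
      reals S hS J n θ halg hind r β hβa hβ d δ C ε hδ hε⟩

end Pool.Agent.Results.MP_f2f914_nt.DistanceFromHypersurfaces
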