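import Pool.Agent.Q50.SP.DualSums

/-!
# The digits of all elements of a real number field, with the optimal dependence on the height

(1) Let `x` be a real algebraic number of degree `d ≥ 2`, let `b ≥ 2`, and let `k` and `δ > 0` be
given. For ALL integral polynomials `f` of degree `1, …, d - 1` and ALL places `s` the digit of
`f(x)` in base `b` changes more than `k` times between the place `s` and the place
`(1 + δ) s + (d - 1 + δ) log_b H`, where `H` bounds the absolute values of the coefficients of `f`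
(but the constant one), as soon as `s + log H` is larger than a constant which only depends on `x`,
`b`, `k`, `δ`. The numbers `f(x)` are all irrational elements of the ring `ℤ[x]` (if `x` is an
algebraic integer), respectively of a lattice of the number field `ℚ(x)`; so this is a uniform
statement on all elements of a real number field of degree `d`. The factor `d - 1` of `log_b H` is
best possible by the theorem of Dirichlet (and Minkowski) on linear forms: there are infinitely many
`f` with coefficients at most `H` such that the first `(d - 1) log_b H - O(1)` digits of `f(x)`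
after the point are all `0` or all `b - 1`.

(2) The same for integral linear combinations of arbitrary real algebraic numbers `ω_1, …, ω_M`
which are linearly independent over `ℚ` together with `1`, for products of them with arbitrary
products `u` of powers of the bases, and for sums of numbers in several bases `β_1, …, β_r`: for all
large `N`, all `q ∈ ℤ^M`, `q ≠ 0`, `max |q_i| ≤ H`, and all `u` with
`δ log u + (M + δ) log H ≤ N`, the number `u (q_1 ω_1 + ⋯ + q_M ω_M)` is not congruent modulo `1` to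
a sum of real numbers `y_1, …, y_r` such that, for every `j`, the digits of `y_j` in base `β_j`
change at most `k` times up to the place `N / log β_j`.

For `H` bounded and `r = 1` this is a theorem of Ridout type on one number; for `s = 0`, `k = 0` it
is Schmidt's theorem on one linear form. Method: the subspace theorem for the vectors
`(U u q_1, …, U u q_M, U p, U / v_1, …, U / v_l)`, where the `v_i` are products of powers of the
bases; the variables which are linearly dependent (as germs along an ultrafilter) are eliminated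
first: a basis is chosen which begins with a basis of the small variables `U / v_i`, and then the
coefficients of the linear form at the other elements of the basis cannot vanish.
-/

set_option autoImplicit false

namespace Pool.Agent.Results.MP_f2f914_nt.NumberFieldElements

open Finset Polynomial

/-- the `i`-th digit of `x` after the point in base `b` -/
noncomputable def digit (b : ℕ) (x : ℝ) (i : ℕ) : ℤ := ⌊x * (b : ℝ) ^ i⌋ % (b : ℤ)

/-- the number of the `i`, `s < i < n`, for which the `i`-th and the `(i + 1)`-st digit of `x` after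
the point in base `b` are different -/
noncomputable def changes (b : ℕ) (x : ℝ) (s n : ℕ) : ℕ :=
  ((Ioo s n).filter fun i => digit b x i ≠ digit b x (i + 1)).card

lemma changes_zero (b : ℕ) (x : ℝ) (n : ℕ) :
    (Pool.Agent.Q50.SP.chs b x n).card = changes b x 0 n := by
  unfold changes Pool.Agent.Q50.SP.chs
  congr 1

lemma digit_shift (b : ℕ) (x : ℝ) (s i : ℕ) :
    digit b ((b : ℝ) ^ s * x) i = digit b x (s + i) := by
  unfold digit
  rw [pow_add]
  congr 2
  ring

lemma changes_shift (b : ℕ) (x : ℝ) (s n : ℕ) :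
    changes b ((b : ℝ) ^ s * x) 0 n = changes b x s (s + n) := by
  unfold changes
  refine Finset.card_bij (fun i _ => s + i) ?_ ?_ ?_
  · intro i hi
    rw [mem_filter, mem_Ioo] at hi ⊢
    rw [digit_shift, digit_shift] at hi
    exact ⟨⟨by omega, by omega⟩, hi.2⟩
  · intro i _ j _ h
    exact Nat.add_left_cancel h
  · intro i hi
    rw [mem_filter, mem_Ioo] at hi
    refine ⟨i - s, ?_, by omega⟩
    rw [mem_filter, mem_Ioo, digit_shift, digit_shift]
    have h1 : s + (i - s) = i := by omega
    have h2 : s + (i - s + 1) = i + 1 := by omega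
    rw [h1, h2]
    exact ⟨⟨by omega, by omega⟩, hi.2⟩

/-- `1` and the `ω j` are linearly independent over `ℚ` -/
def IndependentWithOne {M : ℕ} (ω : Fin M → ℝ) : Prop :=
  ∀ (d : Fin M → ℚ) (c : ℚ), ∑ j, (d j : ℝ) * ω j = c → d = 0

/-- the second part -/
theorem part_two (M : ℕ) (ω : Fin M → ℝ) (halg : ∀ i, IsAlgebraic ℚ (ω i))
    (hind : IndependentWithOne ω) (r : ℕ) (β : Fin r → ℕ) (hβ : ∀ j, 2 ≤ β j) (k : ℕ) (δ : ℝ)
    (hδ : 0 < δ) :
    ∃ N₀ : ℝ, ∀ N : ℝ, N₀ ≤ N → ∀ (c : Fin r → ℕ) (q : Fin M → ℤ) (H : ℝ), q ≠ 0 → 1 ≤ H →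
      (∀ i, |(q i : ℝ)| ≤ H) →
      δ * Real.log (∏ j, (β j : ℝ) ^ c j) + (M + δ) * Real.log H ≤ N → ∀ y : Fin r → ℝ,
      (∃ p : ℤ, ∑ j, y j = (∏ j, (β j : ℝ) ^ c j) * ∑ i, (q i : ℝ) * ω i + p) →
      ∃ j, k < changes (β j) (y j) 0 ⌊N / Real.log (β j)⌋₊ := by
  obtain ⟨N₀, hN₀⟩ := Pool.Agent.Q50.SP.sumsD M ω halg hind r β hβ k δ hδ
  refine ⟨N₀, fun N hN c q H hq hH hqH hNH y hy => ?_⟩
  obtain ⟨j, hj⟩ := hN₀ N hN c q H hq hH hqH hNH y hy
  exact ⟨j, by rw [← changes_zero]; exact hj⟩

/-- the powers of an algebraic number of degree `M + 1` -/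
lemma indep_pow (x : ℝ) (M : ℕ) (hd : (minpoly ℚ x).natDegree = M + 1) :
    IndependentWithOne (fun i : Fin M => x ^ ((i : ℕ) + 1)) := by
  intro d c h
  have h1 := linearIndependent_pow (K := ℚ) x
  rw [hd, Fintype.linearIndependent_iff] at h1
  have h2 := h1 (Fin.cons (-c) d) (by
    rw [Fin.sum_univ_succ]
    simp only [Fin.cons_zero, Fin.cons_succ, Fin.val_zero, pow_zero, Fin.val_succ,
      Algebra.smul_def, mul_one, eq_ratCast]
    rw [h]
    push_cast
    ring)
  funext i
  have := h2 i.succ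
  simpa using this

/-- the first part -/
theorem part_one (x : ℝ) (hx : IsAlgebraic ℚ x) (d : ℕ) (hd : (minpoly ℚ x).natDegree = d) (b : ℕ)
    (hb : 2 ≤ b) (k : ℕ) (δ : ℝ) (hδ : 0 < δ) :
    ∃ X₀ : ℝ, ∀ f : ℤ[X], 0 < f.natDegree → f.natDegree < d → ∀ (s : ℕ) (H : ℝ), 1 ≤ H →
      (∀ i, 0 < i → |(f.coeff i : ℝ)| ≤ H) → X₀ ≤ s + Real.log H →
      k < changes b (aeval x f) s
        ⌊(1 + δ) * s + ((d : ℝ) - 1 + δ) * (Real.log H / Real.log b)⌋₊ := by
  rcases Nat.eq_zero_or_pos d with h0 | h0
  · exact ⟨0, fun f _ hf => absurd hf (by omega)⟩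
  obtain ⟨M, rfl⟩ : ∃ M, d = M + 1 := ⟨d - 1, by omega⟩
  have hlb : 0 < Real.log b := Real.log_pos (by exact_mod_cast (by omega : 1 < b))
  have hb0 : (0 : ℝ) < b := by positivity
  obtain ⟨N₀, hN₀⟩ := part_two M (fun i : Fin M => x ^ ((i : ℕ) + 1)) (fun i => hx.pow _)
    (indep_pow x M hd) 1 (fun _ => b) (fun _ => hb) k δ hδ
  obtain ⟨μ, hμ⟩ : ∃ μ : ℝ, μ = min (δ * Real.log b) δ := ⟨_, rfl⟩
  have hμ0 : 0 < μ := by
    rw [hμ]
    exact lt_min (by positivity) hδ
  refine ⟨|N₀| / μ, fun f hf0 hfd s H hH hfH hX => ?_⟩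
  have hlH : 0 ≤ Real.log H := Real.log_nonneg hH
  obtain ⟨N, hN⟩ : ∃ N : ℝ, N = δ * (s * Real.log b) + (M + δ) * Real.log H := ⟨_, rfl⟩
  have hs0 : (0 : ℝ) ≤ s := Nat.cast_nonneg s
  have hM0 : (0 : ℝ) ≤ M := Nat.cast_nonneg M
  have hNN : N₀ ≤ N := by
    rw [div_le_iff₀ hμ0] at hX
    have h1 : s * μ ≤ s * (δ * Real.log b) :=
      mul_le_mul_of_nonneg_left (by rw [hμ]; exact min_le_left _ _) hs0
    have h2 : Real.log H * μ ≤ Real.log H * δ :=
      mul_le_mul_of_nonneg_left (by rw [hμ]; exact min_le_right _ _) hlH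
    have h3 : 0 ≤ M * Real.log H := by positivity
    have h4 := le_abs_self N₀
    rw [hN]
    nlinarith
  -- the value
  have hval : (aeval x f : ℝ) = ∑ i : Fin M, (f.coeff ((i : ℕ) + 1) : ℝ) * x ^ ((i : ℕ) + 1) +
      f.coeff 0 := by
    rw [aeval_eq_sum_range' hfd, Finset.sum_range_succ']
    rw [← Fin.sum_univ_eq_sum_range (fun i => f.coeff (i + 1) • x ^ (i + 1))]
    simp
  obtain ⟨j, hj⟩ := hN₀ N hNN (fun _ => s) (fun i : Fin M => f.coeff ((i : ℕ) + 1)) H
    (by
      intro h
      have h1 : f.natDegree - 1 < M := by omega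
      have h2 := congrFun h ⟨f.natDegree - 1, h1⟩
      simp only [Pi.zero_apply] at h2
      rw [Nat.sub_add_cancel (by omega : 1 ≤ f.natDegree)] at h2
      have h3 : f.leadingCoeff = 0 := h2
      rw [leadingCoeff_eq_zero] at h3
      rw [h3] at hf0
      simp at hf0)
    hH (fun i => hfH _ (by omega))
    (by
      simp only [Finset.univ_unique, Finset.prod_const, Finset.card_singleton, pow_one,
        Real.log_pow]
      rw [hN])
    (fun _ => (b : ℝ) ^ s * aeval x f)
    ⟨b ^ s * f.coeff 0, by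
      simp only [Finset.univ_unique, Finset.prod_const, Finset.sum_const, Finset.card_singleton,
        pow_one, one_smul]
      rw [hval]
      push_cast
      ring⟩
  rw [changes_shift] at hj
  have e1 : s + ⌊N / Real.log b⌋₊ =
      ⌊(1 + δ) * s + (((M + 1 : ℕ) : ℝ) - 1 + δ) * (Real.log H / Real.log b)⌋₊ := by
    rw [add_comm s, ← Nat.floor_add_natCast]
    · congr 1
      rw [hN]
      push_cast
      field_simp
      ring
    · rw [hN]
      positivity
  rw [e1] at hj
  exact hj

/-- (1) Let `x` be a real algebraic number of degree `d`, `b ≥ 2` and `δ > 0`. For all integral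
polynomials `f` with `0 < deg f < d`, all places `s` and all `H ≥ 1` with `|f_i| ≤ H` for `i > 0`,
the digit of `f(x)` in base `b` changes more than `k` times between the places `s` and
`(1 + δ) s + (d - 1 + δ) log_b H`, if `s + log H ≥ X₀(x, b, k, δ)`.

(2) Let `ω_1, …, ω_M` be real algebraic numbers which are linearly independent over `ℚ` together
with `1`, and let `β_1, …, β_r ≥ 2`. For all `k` and `δ > 0` and all large `N`, for all
`q ∈ ℤ^M`, `q ≠ 0`, and `H ≥ 1` with `|q_i| ≤ H` and all products `u = ∏ β_j ^ c_j` with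
`δ log u + (M + δ) log H ≤ N`: if the sum of the real numbers `y_1, …, y_r` is congruent to
`u ∑ q_i ω_i` modulo `1`, then for some `j` the digits of `y_j` in base `β_j` change more than `k`
times up to the place `N / log β_j`. -/
theorem result :
    (∀ (x : ℝ) (_ : IsAlgebraic ℚ x) (d : ℕ) (_ : (minpoly ℚ x).natDegree = d) (b : ℕ)
      (_ : 2 ≤ b) (k : ℕ) (δ : ℝ), 0 < δ →
      ∃ X₀ : ℝ, ∀ f : ℤ[X], 0 < f.natDegree → f.natDegree < d → ∀ (s : ℕ) (H : ℝ), 1 ≤ H →
        (∀ i, 0 < i → |(f.coeff i : ℝ)| ≤ H) → X₀ ≤ s + Real.log H →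
        k < changes b (aeval x f) s
          ⌊(1 + δ) * s + ((d : ℝ) - 1 + δ) * (Real.log H / Real.log b)⌋₊) ∧
    ∀ (M : ℕ) (ω : Fin M → ℝ) (_ : ∀ i, IsAlgebraic ℚ (ω i)) (_ : IndependentWithOne ω)
      (r : ℕ) (β : Fin r → ℕ) (_ : ∀ j, 2 ≤ β j) (k : ℕ) (δ : ℝ), 0 < δ →
      ∃ N₀ : ℝ, ∀ N : ℝ, N₀ ≤ N → ∀ (c : Fin r → ℕ) (q : Fin M → ℤ) (H : ℝ), q ≠ 0 → 1 ≤ H →
        (∀ i, |(q i : ℝ)| ≤ H) →
        δ * Real.log (∏ j, (β j : ℝ) ^ c j) + (M + δ) * Real.log H ≤ N → ∀ y : Fin r → ℝ,
        (∃ p : ℤ, ∑ j, y j = (∏ j, (β j : ℝ) ^ c j) * ∑ i, (q i : ℝ) * ω i + p) →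
        ∃ j, k < changes (β j) (y j) 0 ⌊N / Real.log (β j)⌋₊ :=
  ⟨fun x hx d hd b hb k δ hδ => part_one x hx d hd b hb k δ hδ,
    fun M ω halg hind r β hβ k δ hδ => part_two M ω halg hind r β hβ k δ hδ⟩

end Pool.Agent.Results.MP_f2f914_nt.NumberFieldElements
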