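import Pool.Agent.Q4.Blk.Thm

set_option autoImplicit false

/-!
# MP_f2f914_nt: polynomial congruences between digit blocks of algebraic numbers

`digit b x i = ⌊x b^i⌋ mod b` is the `i`-th digit after the point of `x` in base `b`, and
`block b x t l = ∑ i < l, digit b x (t - i) * b ^ i` is the integer written by the `l` digits of `x`
at the places `t - l + 1, …, t`.

1. (Digit blocks.) Let `θ j k` (`j < J`, `k < n`) be real algebraic numbers such that, for every
`j`, the numbers `1, θ j 0, …, θ j (n - 1)` are linearly independent over `ℚ`.  For large `m`, places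
`t 0, …, t (J-1) ≤ C m` which are at distance `≥ δ m` from each other and from `0`, and `l ≤ t j`,
the blocks of `l` digits of the numbers `θ j k` ending at the places `t j` satisfy no polynomial
congruence `F(blocks) ≡ 0 mod Q`, where `Q ≥ b^(ε m)` divides `b^l` and `F ≠ 0` is an integer
polynomial of degree `≤ d` with coefficients at most `b^(η m)`.

2. (`S`-parts.) Let `S` be a finite set of primes and let `spart S x` be the largest divisor of `x`
composed of the primes of `S`.  For positive integers `q j ≤ exp (C m)` composed of the primes of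
`S`, with `log (q j) ≥ δ m` and `|log (q i) - log (q j)| ≥ δ m`, and for every integer polynomial
`F` of degree `≤ d` whose coefficients are at most `exp (η m)` times their `S`-parts, the integer
`F(⌊θ j k * q j⌋)` is not zero and its `S`-part is at most `exp (ε m)` times the smallest `S`-part of
a coefficient of `F`, for large `m`.
-/

namespace Pool.Agent.Results.MP_f2f914_nt.PolynomialCongruences

open Pool.Agent.Q4.Blk

/-- Digit blocks of algebraic numbers satisfy no polynomial congruences. -/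
theorem result :
    (∀ b : ℕ, 2 ≤ b → ∀ (J n : ℕ) (θ : Fin J → Fin n → ℝ), (∀ j k, IsAlgebraic ℚ (θ j k)) →
      (∀ j, LinearIndependent ℚ (fun o : Option (Fin n) => (o.elim 1 (θ j) : ℝ))) →
      ∀ (d : ℕ) (δ C ε : ℝ), 0 < δ → 0 < ε →
      ∃ η : ℝ, 0 < η ∧ ∃ M : ℕ, ∀ m : ℕ, M ≤ m → ∀ t : Fin J → ℕ,
        (∀ j, δ * m ≤ t j ∧ (t j : ℝ) ≤ C * m) →
        (∀ i j, i ≠ j → δ * m ≤ |(t i : ℝ) - t j|) →
        ∀ l : ℕ, (∀ j, l ≤ t j) → ∀ Q : ℕ, Q ∣ b ^ l → (b : ℝ) ^ (ε * (m : ℝ)) ≤ Q →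
        ∀ F : MvPolynomial (Fin J × Fin n) ℤ, F ≠ 0 → F.totalDegree ≤ d →
          (∀ I, |((F.coeff I : ℤ) : ℝ)| ≤ (b : ℝ) ^ (η * (m : ℝ))) →
          ¬ (Q : ℤ) ∣ MvPolynomial.eval (fun s => block b (θ s.1 s.2) (t s.1) l) F) ∧
    (∀ S : Finset ℕ, (∀ p ∈ S, p.Prime) → ∀ (J n : ℕ) (θ : Fin J → Fin n → ℝ),
      (∀ j k, IsAlgebraic ℚ (θ j k)) →
      (∀ j, LinearIndependent ℚ (fun o : Option (Fin n) => (o.elim 1 (θ j) : ℝ))) →
      ∀ (d : ℕ) (δ C ε : ℝ), 0 < δ → 0 < ε →
      ∃ η : ℝ, 0 < η ∧ ∃ M : ℕ, ∀ m : ℕ, M ≤ m → ∀ q : Fin J → ℕ,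
        (∀ j, q j ≠ 0) → (∀ j, (q j).primeFactors ⊆ S) →
        (∀ j, δ * m ≤ Real.log (q j)) → (∀ j, Real.log (q j) ≤ C * m) →
        (∀ i j, i ≠ j → δ * m ≤ |Real.log (q i) - Real.log (q j)|) →
        ∀ F : MvPolynomial (Fin J × Fin n) ℤ, F.totalDegree ≤ d →
          (∀ I ∈ F.support,
            |((F.coeff I : ℤ) : ℝ)| ≤ Real.exp (η * m) * spart S (F.coeff I) ∧
            (spart S (F.coeff I) : ℝ) ≤ Real.exp (C * m)) →
          ∀ I ∈ F.support,
            MvPolynomial.eval (fun s => ⌊θ s.1 s.2 * q s.1⌋) F ≠ 0 ∧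
            (spart S (MvPolynomial.eval (fun s => ⌊θ s.1 s.2 * q s.1⌋) F) : ℝ)
              ≤ Real.exp (ε * m) * spart S (F.coeff I)) :=
  ⟨fun b hb J n θ halg hind d δ C ε hδ hε => blocks b hb J n θ halg hind d δ C ε hδ hε,
    fun S hS J n θ halg hind d δ C ε hδ hε => sparts S hS J n θ halg hind d δ C ε hδ hε⟩

end Pool.Agent.Results.MP_f2f914_nt.PolynomialCongruences
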