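import Pool.Agent.Y933.KD.Fam
import Pool.Agent.Y933.KD.Roots

/-!
# The digits of the roots `ω m ^ c + y`, `m` in a short interval

Let `c > 0` be a number which is not an integer (for instance `c = 1/d`). For `m` in a short interval
`(N, N + M]`, where `M ≥ N ^ (1/2 + η)` and `M ≥ N ^ (1 - c + η)` (for instance the numbers `√m`, or
`√2 √m + √3`, for `m` in an interval of the length `N ^ (1/2 + η)`), all the numbers `ω m ^ c + y`, with at most
`M ^ (1 - δ)` exceptions, have all words of at most `w` digits with the right frequency in all bases `b ≤ B`, in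
every window of the first `A log M` digits, up to `ε log M`. The exponent `δ` and the bound for `M` depend on
`c, B, w, A, W, η` and `ε` only; `ω` and `y` are arbitrary with `1 ≤ |ω| ≤ M ^ W`.

The estimate for the exponential sums (`Pool.Agent.Y933.KD.good_root`) is proved in the starting files, where
it was not used.
-/

set_option autoImplicit false

namespace Pool.Agent.Results.MP_f2f914_nt.RootsInShortIntervals

open Finset

/-- the word of the `k` digits in base `b` of `y` which follow the first `n` digits after the point,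
read as an integer between `0` and `b ^ k - 1` -/
noncomputable def word (b k n : ℕ) (y : ℝ) : ℕ :=
  ⌊(b : ℝ) ^ k * Int.fract ((b : ℝ) ^ n * y)⌋₊

/-- in every base `2 ≤ b ≤ B` the number of occurrences of every word of `1 ≤ k ≤ w` digits at the `N`
places `s, …, s + N - 1` of `y`, for every window with `s + N ≤ L`, differs from `N / b ^ k` by at
most `E` -/
def NormalUpTo (B w : ℕ) (L E : ℝ) (y : ℝ) : Prop :=
  ∀ b k j s N : ℕ, 2 ≤ b → b ≤ B → 1 ≤ k → k ≤ w → j < b ^ k → (s : ℝ) + N ≤ L →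
    |(({i : ℕ | i < N ∧ word b k (s + i) y = j}.ncard : ℕ) : ℝ) - N / (b : ℝ) ^ k| ≤ E

theorem result (c : ℝ) (hc0 : 0 < c) (hc : ∀ m : ℕ, c ≠ m) (B w : ℕ) (A W η ε : ℝ) (hη : 0 < η)
    (hε : 0 < ε) :
    ∃ δ : ℝ, 0 < δ ∧ ∃ M₀ : ℕ, ∀ M : ℕ, M₀ ≤ M → ∀ N : ℕ, (N : ℝ) ^ (1 / 2 + η) ≤ M →
      (N : ℝ) ^ (1 - c + η) ≤ M → ∀ ω y : ℝ, 1 ≤ |ω| → |ω| ≤ (M : ℝ) ^ W →
      (({m : ℕ | N < m ∧ m ≤ N + M ∧ ¬ NormalUpTo B w (A * Real.log M) (ε * Real.log M)
          (ω * (m : ℝ) ^ c + y)}.ncard : ℕ) : ℝ) ≤ (M : ℝ) ^ (1 - δ) := by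
  classical
  obtain ⟨δ, hδ, M0, h⟩ := Pool.Agent.Y933.KD.normal_gen (ι := ℕ) (B := B) (w := w) (A := A) hε
    (Pool.Agent.Y933.KD.SR_prob c η W) (Pool.Agent.Y933.KD.good_root hc0 hc hη W B 1 A)
  refine ⟨δ, hδ, max M0 1, fun M hM N hN1 hN2 ω y hω1 hω2 => ?_⟩
  have hM1 : 1 ≤ M := le_of_max_le_right hM
  have hMp : (0 : ℝ) < M := by exact_mod_cast hM1
  have key := h M (le_of_max_le_left hM) (Finset.Ioc N (N + M))
    (fun m : ℕ => ω * (m : ℝ) ^ c + y) ⟨N, ω, y, hN1, hN2, hω1, hω2, rfl⟩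
  have hcard : (Finset.Ioc N (N + M)).card = M := by rw [Nat.card_Ioc]; omega
  rw [hcard] at key
  have e1 : (M : ℝ) * (M : ℝ) ^ (-δ) = (M : ℝ) ^ (1 - δ) := by
    rw [sub_eq_add_neg, Real.rpow_add hMp, Real.rpow_one]
  rw [e1] at key
  refine le_trans ?_ key
  rw [Nat.cast_le, ← Set.ncard_coe_finset]
  refine Set.ncard_le_ncard ?_ (Finset.finite_toSet _)
  rintro m ⟨hm1, hm2, hm3⟩
  rw [Finset.mem_coe, Finset.mem_filter, Finset.mem_Ioc]
  refine ⟨⟨hm1, hm2⟩, fun hcon => hm3 ?_⟩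
  intro b k j s N' hb hbB hk hkw hj hsN
  have h1 := hcon b k j s N' hb hbB hk hkw hj hsN
  have h2 : {i : ℕ | i < N' ∧ word b k (s + i) (ω * (m : ℝ) ^ c + y) = j} =
      (((Finset.range N').filter (fun i => Pool.Agent.Y933.KD.wd b k (s + i)
        (ω * (m : ℝ) ^ c + y) = j) : Finset ℕ) : Set ℕ) := by
    ext i
    simp only [Set.mem_ofPred_eq, Finset.coe_filter, Finset.mem_range]
    rfl
  rw [h2, Set.ncard_coe_finset]
  exact h1

end Pool.Agent.Results.MP_f2f914_nt.RootsInShortIntervals
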